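import Mathlib

/-!
# Separating two modules modulo the maximal ideal

Let `W` be a local ring, `T₀`, `T₁` finitely generated modules and `S` an algebra of pairs of operators on
`T₀` and `T₁`. If some pair in `S` is surjective on `T₀ / p` and nilpotent on `T₁ / p`, where `p` is in the
maximal ideal, then the pair `(1, 0)` is in `S`.
-/

set_option autoImplicit false

namespace Pool.Agent.U586.CP

open Module Polynomial

universe u v w

section

variable {W : Type u} [CommRing W]

/-- The inverse of a surjective operator is a polynomial in the operator. -/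
theorem exists_poly_inv {T : Type v} [AddCommGroup T] [Module W T] [Module.Finite W T]
    (f : Module.End W T) (hf : Function.Surjective f) : ∃ h : W[X], f * aeval f h = 1 := by
  have hinj : Function.Injective f := OrzechProperty.injective_of_surjective_endomorphism f hf
  obtain ⟨g, hfg, hgf⟩ : ∃ g : Module.End W T, f * g = 1 ∧ g * f = 1 := by
    let e := LinearEquiv.ofBijective f ⟨hinj, hf⟩
    refine ⟨e.symm.toLinearMap, ?_, ?_⟩
    · ext x
      exact e.apply_symm_apply x
    · ext x
      exact e.symm_apply_apply x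
  have hpow : ∀ i : ℕ, f ^ i * g ^ i = 1 := by
    intro i
    induction i with
    | zero => simp
    | succ i ih => rw [pow_succ, pow_succ', mul_assoc, ← mul_assoc f g, hfg, one_mul, ih]
  obtain ⟨θ, hθ, hθg⟩ := LinearMap.exists_monic_and_aeval_eq_zero W g
  rw [aeval_eq_sum_range, Finset.sum_range_succ, hθ.coeff_natDegree, one_smul] at hθg
  refine ⟨-∑ i ∈ Finset.range θ.natDegree, C (θ.coeff i) * X ^ (θ.natDegree - 1 - i), ?_⟩
  have h1 : f * aeval f (∑ i ∈ Finset.range θ.natDegree, C (θ.coeff i) * X ^ (θ.natDegree - 1 - i)) =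
      f ^ θ.natDegree * ∑ i ∈ Finset.range θ.natDegree, θ.coeff i • g ^ i := by
    rw [map_sum, Finset.mul_sum, Finset.mul_sum]
    refine Finset.sum_congr rfl fun i hi => ?_
    have hi' := Finset.mem_range.1 hi
    rw [map_mul, map_pow, aeval_X, aeval_C, Algebra.algebraMap_eq_smul_one, smul_one_mul,
      mul_smul_comm, mul_smul_comm, ← pow_succ']
    have e1 : θ.natDegree = (θ.natDegree - 1 - i + 1) + i := by omega
    conv_rhs => rw [e1]
    rw [pow_add _ _ i, mul_assoc, hpow, mul_one]
  have h2 : ∑ i ∈ Finset.range θ.natDegree, θ.coeff i • g ^ i = - g ^ θ.natDegree :=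
    eq_neg_of_add_eq_zero_left hθg
  rw [map_neg, mul_neg, h1, h2, mul_neg, neg_neg, hpow]

variable {T₀ : Type v} [AddCommGroup T₀] [Module W T₀] [Module.Finite W T₀] {T₁ : Type w}
  [AddCommGroup T₁] [Module W T₁] [Module.Finite W T₁]

/-- **Separation.** -/
theorem proj_mem (p : W) (hp : Ideal.span {p} ≤ Ideal.jacobson ⊥)
    (S : Subalgebra W (Module.End W T₀ × Module.End W T₁)) (x : Module.End W T₀ × Module.End W T₁)
    (hx : x ∈ S) (h0 : ∀ y : T₀, ∃ z w, y = x.1 z + p • w) (N : ℕ)
    (h1 : ∀ y : T₁, ∃ w, (x.2 ^ N) y = p • w) :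
    ((1, 0) : Module.End W T₀ × Module.End W T₁) ∈ S := by
  have haeval : ∀ {y : Module.End W T₀ × Module.End W T₁}, y ∈ S → ∀ q : W[X], aeval y q ∈ S :=
    fun hy q => Algebra.adjoin_le (Set.singleton_subset_iff.2 hy) (aeval_mem_adjoin_singleton W _)
  obtain ⟨Q, hQ, -, hQc, hQ0⟩ :=
    LinearMap.exists_monic_and_natDegree_eq_and_coeff_mem_pow_and_aeval_eq_zero W (x.2 ^ N)
      (Ideal.span {p}) (by
        rintro _ ⟨y, rfl⟩
        obtain ⟨w, hw⟩ := h1 y
        rw [hw]
        exact Submodule.smul_mem_smul (Ideal.mem_span_singleton_self p) trivial)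
  -- surjective modulo `p`
  have hpw : ∀ (i : ℕ) (y : T₀), ∃ z w, y = (x.1 ^ i) z + p • w := by
    intro i
    induction i with
    | zero => exact fun y => ⟨y, 0, by simp⟩
    | succ i ih =>
      intro y
      obtain ⟨z, w, rfl⟩ := ih y
      obtain ⟨z', w', rfl⟩ := h0 z
      refine ⟨z', (x.1 ^ i) w' + w, ?_⟩
      rw [map_add, map_smul, pow_succ, smul_add, ← add_assoc]
      rfl
  obtain ⟨f, hf⟩ : ∃ f : Module.End W T₀, f = aeval (x.1 ^ N) Q := ⟨_, rfl⟩
  have hfp : ∃ u : Module.End W T₀, f = (x.1 ^ N) ^ Q.natDegree + p • u := by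
    have key : ∀ i ∈ Finset.range Q.natDegree, ∃ u : Module.End W T₀,
        Q.coeff i • (x.1 ^ N) ^ i = p • u := by
      intro i hi
      have h2 := hQc i
      have h3 : Q.coeff i ∈ Ideal.span {p} :=
        Ideal.pow_le_self (by have := Finset.mem_range.1 hi; omega) h2
      obtain ⟨a, ha⟩ := Ideal.mem_span_singleton'.1 h3
      exact ⟨a • (x.1 ^ N) ^ i, by rw [smul_smul, mul_comm, ha]⟩
    choose! u hu using key
    refine ⟨∑ i ∈ Finset.range Q.natDegree, u i, ?_⟩
    rw [hf, aeval_eq_sum_range, Finset.sum_range_succ, hQ.coeff_natDegree, one_smul, add_comm,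
      Finset.smul_sum, Finset.sum_congr rfl hu]
  have hsurj : Function.Surjective f := by
    rw [← LinearMap.range_eq_top, ← top_le_iff]
    refine Submodule.le_of_le_smul_of_le_jacobson_bot (I := Ideal.span {p}) Module.Finite.fg_top hp ?_
    intro y _
    obtain ⟨u, hu⟩ := hfp
    obtain ⟨z, w, hzw⟩ := hpw (N * Q.natDegree) y
    have e1 : y = f z + p • (w - u z) := by
      rw [hu, hzw, smul_sub, ← pow_mul]
      simp only [LinearMap.add_apply, LinearMap.smul_apply]
      abel
    rw [e1]
    exact Submodule.add_mem_sup ⟨z, rfl⟩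
      (Submodule.smul_mem_smul (Ideal.mem_span_singleton_self p) trivial)
  obtain ⟨h, hh⟩ := exists_poly_inv f hsurj
  obtain ⟨s, hs⟩ : ∃ s : Module.End W T₀ × Module.End W T₁, s = aeval (x ^ N) Q := ⟨_, rfl⟩
  have hsS : s ∈ S := by
    rw [hs]
    exact haeval (S.pow_mem hx N) Q
  have hs1 : s.1 = f := by
    rw [hs, hf]
    exact (aeval_algHom_apply (AlgHom.fst W (Module.End W T₀) (Module.End W T₁)) (x ^ N) Q).symm
  have hs2 : s.2 = 0 := by
    rw [hs, ← hQ0]
    exact (aeval_algHom_apply (AlgHom.snd W (Module.End W T₀) (Module.End W T₁)) (x ^ N) Q).symm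
  have hfin : ((1, 0) : Module.End W T₀ × Module.End W T₁) = s * aeval s h := by
    refine Prod.ext ?_ ?_
    · have e2 : (aeval s h).1 = aeval s.1 h :=
        (aeval_algHom_apply (AlgHom.fst W (Module.End W T₀) (Module.End W T₁)) s h).symm
      rw [Prod.fst_mul, e2, hs1, hh]
    · rw [Prod.snd_mul, hs2, zero_mul]
  rw [hfin]
  exact S.mul_mem hsS (haeval hsS h)

end

end Pool.Agent.U586.CP
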