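import Pool.Agent.Results.MP_8f22fa_ag.IntegralProjectors

/-!
# Coefficient fields of the noncommutative Kunneth conjecture: definitions
-/

set_option autoImplicit false

open CategoryTheory Module TensorProduct Limits MonoidalCategory

namespace Pool.Agent.U586.CP.CF

open Pool.Agent.Results.MP_eadf0f_ag.EveryPositiveCharacteristic
open Pool.Agent.Results.MP_8f22fa_ag.IntegralProjectors
open Pool.Agent.Y112.SR Pool.Agent.Y112.KD Pool.Agent.R484.NC Pool.Agent.N164.NC

universe u v w u' v' w'

/-- The projector of `H (A)` onto the even part is `y / m`, where `y` is a correspondence and `m` an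
integer prime to `p`. -/
def LocalPlus {R : Type} [CommRing R] {D : Type u} [Category.{v} D] [Preadditive D]
    (H : SuperFunctor.{u, v, w} R D) (p : ℕ) (A : D) : Prop :=
  ∃ (m : ℤ) (y : A ⟶ A), ¬ (p : ℤ) ∣ m ∧ (∀ x, H.act 0 y x = m • x) ∧ ∀ x, H.act 1 y x = 0

/-- The traces of the endomorphisms of `U (A)` which come from correspondences are integers, and each
endomorphism of `U (A)` has a multiple which comes from a correspondence. -/
def IsIntegral {D : Type u} [Category.{v} D] {K : Type} [Field K] {N : Chow.{u', v'}}
    (ρ : Rational D K N) : Prop :=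
  (∀ (A : D) (z : A ⟶ A), ∃ n : ℤ, ctr N.unit (ρ.func.map z) = n) ∧
    ∀ (A : D) (f : ρ.func.obj A ⟶ ρ.func.obj A), ∃ (n : ℤ) (z : A ⟶ A),
      n ≠ 0 ∧ (n : ℚ) • f = ρ.func.map z

/-- On `V ⊗ E` the operator `q` is the combination of the operators `a i` with the coefficients `c i`
in `F`. -/
def IsComb {k : Type} [Field k] {V : Type w} [AddCommGroup V] [Module k V] {F : Type} (E : Type)
    [Field F] [Field E] [Algebra k E] [Algebra F E] {n : ℕ} (c : Fin n → F) (a : Fin n → V → V)
    (q : V → V) : Prop := ∀ x, ∑ i, algebraMap F E (c i) ⊗ₜ[k] a i x = 1 ⊗ₜ[k] q x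

/-- In characteristic zero: the Kunneth projector of `M` is algebraic with coefficients in `F`, that
is, on `R (M) ⊗ E` it is a combination of endomorphisms of `M` with coefficients in `F`. -/
def AlgebraicOver {k : Type} [Field k] {N : Chow.{u', v'}} (R : SuperRealisation N.C k) (M : N.C)
    (F E : Type) [Field F] [Field E] [Algebra k E] [Algebra F E] : Prop :=
  ∃ (n : ℕ) (c : Fin n → F) (f : Fin n → (M ⟶ M)),
    IsComb (k := k) E c (fun i => op R (f i)) (evp R M)

/-- One of the Kunneth projectors of `A` is algebraic for some coefficient field. -/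
def Some {k : Type} [Field k] (M : Motives.{u, v, w} k) (A : M.Cat) : Prop :=
  ∃ (F E : Type) (_ : Field F) (_ : Field E) (_ : Algebra k E) (_ : Algebra F E),
    SomeAlgebraic M F E A

/-- The Kunneth projectors of `A` are algebraic for all coefficient fields. -/
def All {k : Type} [Field k] (M : Motives.{u, v, w} k) (A : M.Cat) : Prop :=
  ∀ (F E : Type) [Field F] [Field E] [Algebra k E] [Algebra F E],
    M.PlusAlgebraic F E A ∧ M.MinusAlgebraic F E A

end Pool.Agent.U586.CP.CF
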