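import Pool.Agent.U586.CP.Desc
import Pool.Agent.N164.NC.Rank

/-!
# Projectors with coefficients in a localisation of the integers
-/

set_option autoImplicit false

open CategoryTheory Limits MonoidalCategory
open Pool.Agent.Y112.SR Pool.Agent.Y112.KD Pool.Agent.R484.NC Pool.Agent.N164.NC

namespace Pool.Agent.U586.CP

universe u v w

lemma pow_dvd_of {p : ℕ} [hp : Fact p.Prime] {W : Type} [CommRing W] [IsDomain W] [CharZero W]
    (hpW : ∀ (n : ℤ) (w : W), (n : W) = p * w → (p : ℤ) ∣ n) (a : ℕ) :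
    ∀ (n : ℤ) (w : W), (n : W) = (p : W) ^ a * w → (p : ℤ) ^ a ∣ n := by
  induction a with
  | zero => intro n w _; simp
  | succ a ih =>
    intro n w h
    obtain ⟨n', hn'⟩ := hpW n ((p : W) ^ a * w) (by rw [h, pow_succ']; ring)
    have hp0 : (p : W) ≠ 0 := Nat.cast_ne_zero.2 hp.out.ne_zero
    have h1 : (n' : W) = (p : W) ^ a * w := by
      apply mul_left_cancel₀ hp0
      rw [hn'] at h
      push_cast at h
      rw [h, pow_succ']
      ring
    obtain ⟨n'', hn''⟩ := ih n' w h1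
    exact ⟨n'', by rw [hn', hn'', pow_succ']; ring⟩

section

variable {C : Type u} [Category.{v} C] [Preadditive C] [Linear ℚ C] [MonoidalCategory C]
  [MonoidalPreadditive C] [MonoidalLinear ℚ C] [SymmetricCategory C] [RightRigidCategory C]
  {K : Type w} [Field K] (R : SuperRealisation C K)

omit [MonoidalPreadditive C] [MonoidalLinear ℚ C] [RightRigidCategory C] in
lemma str_mul {M : C} (f g : M ⟶ M) : str R (f ≫ g) =
    LinearMap.trace K (R.H.obj M) ((evp R M - (1 - evp R M)) * (op R g * op R f)) := by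
  rw [str_eq, Pool.Agent.R484.NC.op_comp]

/-- The main argument: `E` is the ring of correspondences, `ψ` its action on the realisation of `M`. -/
theorem local_of_integral {p : ℕ} [hp : Fact p.Prime] {W : Type} [CommRing W] [IsDomain W] [CharZero W]
    [Algebra W K] (hWK : Function.Injective (algebraMap W K))
    (hW : ∀ n : ℤ, ¬ (p : ℤ) ∣ n → IsUnit (n : W))
    (hpW : ∀ (n : ℤ) (w : W), (n : W) = p * w → (p : ℤ) ∣ n)
    (hU : UnitQ C) (M : C) (E : Type*) [Ring E] (ψ : E →+* Module.End K (R.H.obj M))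
    (φ : E → (M ⟶ M)) (hφ : ∀ z, op R (φ z) = ψ z) (hint : ∀ z, ∃ n : ℤ, ctr hU (φ z) = n)
    (hden : ∀ f : M ⟶ M, ∃ (n : ℤ) (z : E), n ≠ 0 ∧ (n : ℚ) • f = φ z)
    {n : ℕ} (c : Fin n → W) (z : Fin n → E)
    (hc : evp R M = ∑ i, algebraMap W K (c i) • ψ (z i)) :
    ∃ (m : ℤ) (y : E), ¬ (p : ℤ) ∣ m ∧ ψ y = (m : K) • evp R M := by
  have hcz := R_charZero R
  have hpp : Prime (p : ℤ) := Nat.prime_iff_prime_int.1 hp.out
  have hplus : R.CPlus M := by
    apply cplus_of_span R hU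
    rw [hc]
    exact Submodule.sum_mem _ fun i _ => Submodule.smul_mem _ _
      (Submodule.subset_span ⟨φ (z i), hφ _⟩)
  obtain ⟨f, hf⟩ := (cplus_iff_op R M).1 hplus
  obtain ⟨n0, z0, hn0, hz0⟩ := hden f
  have hψ0 : ψ z0 = (n0 : K) • evp R M := by
    rw [← hφ, ← hz0, Pool.Agent.R484.NC.op_smul, hf]
    simp
  obtain ⟨a, n', hn', hnn⟩ : ∃ (a : ℕ) (n' : ℤ), ¬ (p : ℤ) ∣ n' ∧ n0 = (p : ℤ) ^ a * n' := by
    obtain ⟨a, n', h1, h2⟩ := WfDvdMonoid.max_power_factor hn0 hpp.irreducible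
    exact ⟨a, n', h1, h2⟩
  -- the pairing
  obtain ⟨L, hL⟩ : ∃ L : Module.End K (R.H.obj M) →ₗ[K] K, ∀ T, L T = LinearMap.trace K (R.H.obj M)
      ((evp R M - (1 - evp R M)) * T) :=
    ⟨LinearMap.trace K (R.H.obj M) ∘ₗ LinearMap.mulLeft K (evp R M - (1 - evp R M)), fun _ => rfl⟩
  have hτint : ∀ x y, ∃ t : ℤ, (t : K) = L (ψ y * ψ x) := by
    intro x y
    obtain ⟨t, ht⟩ := hint (y * x)
    refine ⟨t, ?_⟩
    have h1 : ((ctr hU (φ (y * x)) : ℚ) : K) = (t : K) := by rw [ht]; simp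
    rw [← h1, ctr_eq R hU, str_eq, hφ, ← hL, RingHom.map_mul]
  choose t ht using hτint
  have hrel : ∀ y, (t z0 y : K) = (n0 : K) * ∑ i, algebraMap W K (c i) * (t (z i) y : K) := by
    intro y
    have h1 : ∀ i, algebraMap W K (c i) * (t (z i) y : K) =
        L (ψ y * (algebraMap W K (c i) • ψ (z i))) := by
      intro i
      rw [ht, mul_smul_comm, L.map_smul, smul_eq_mul]
    rw [ht, hψ0, mul_smul_comm, L.map_smul, smul_eq_mul, Finset.sum_congr rfl fun i _ => h1 i,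
      ← map_sum, ← Finset.mul_sum, ← hc]
  have hrelW : ∀ y, (t z0 y : W) = (n0 : W) * ∑ i, c i * (t (z i) y : W) := by
    intro y
    apply hWK
    rw [map_intCast, map_mul, map_intCast, map_sum]
    rw [hrel]
    congr 1
    exact Finset.sum_congr rfl fun i _ => by rw [map_mul, map_intCast]
  have hdiv : ∀ y, (p : ℤ) ^ a ∣ t z0 y := by
    intro y
    refine pow_dvd_of hpW a _ ((n' : W) * ∑ i, c i * (t (z i) y : W)) ?_
    rw [hrelW, hnn]
    push_cast
    ring
  choose b hb using hdiv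
  have hp0 : (p : W) ≠ 0 := Nat.cast_ne_zero.2 hp.out.ne_zero
  have hbW : ∀ y, (b y : W) = ∑ i ∈ Finset.univ, ((n' : W) * c i) * (t (z i) y : W) := by
    intro y
    apply mul_left_cancel₀ (pow_ne_zero a hp0)
    have h1 := hrelW y
    rw [hb y, hnn] at h1
    push_cast at h1
    rw [h1, mul_assoc]
    congr 1
    rw [Finset.mul_sum]
    exact Finset.sum_congr rfl fun i _ => by ring
  obtain ⟨m1, d, hm1, hd⟩ := descent hW hpW (fun i y => t (z i) y) b Finset.univ
    (fun i => (n' : W) * c i) hbW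
  obtain ⟨y, hy⟩ : ∃ y : E, y = ∑ i, d i • z i := ⟨_, rfl⟩
  obtain ⟨m, hm⟩ : ∃ m : ℤ, m = m1 * n' := ⟨_, rfl⟩
  have hpm : ¬ (p : ℤ) ∣ m := by
    rw [hm]
    intro h
    rcases hpp.dvd_or_dvd h with h | h
    · exact hm1 h
    · exact hn' h
  have hm0 : m ≠ 0 := fun h => hpm (by rw [h]; exact dvd_zero _)
  have hnK : ((p : K)) ≠ 0 := Nat.cast_ne_zero.2 hp.out.ne_zero
  have hτy : ∀ x, L (ψ x * ψ y) = (m : K) * L (ψ x * evp R M) := by
    intro x
    have h1 : L (ψ x * ψ y) = ∑ i, (d i : K) * L (ψ x * ψ (z i)) := by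
      rw [hy, map_sum, Finset.mul_sum, map_sum]
      refine Finset.sum_congr rfl fun i _ => ?_
      rw [map_zsmul, mul_smul_comm, map_zsmul, zsmul_eq_mul]
    have h2 : L (ψ x * ψ y) = (m1 : K) * (b x : K) := by
      rw [h1]
      have h3 := congrArg (fun s : ℤ => (s : K)) (hd x)
      simp only [Int.cast_mul, Int.cast_sum] at h3
      rw [h3]
      exact Finset.sum_congr rfl fun i _ => by rw [ht]
    have h4 : (p : K) ^ a * (b x : K) = (p : K) ^ a * ((n' : K) * L (ψ x * evp R M)) := by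
      have h5 : (t z0 x : K) = (n0 : K) * L (ψ x * evp R M) := by
        rw [ht, hψ0, mul_smul_comm, L.map_smul, smul_eq_mul]
      rw [hb x, hnn] at h5
      push_cast at h5
      rw [h5]
      ring
    rw [h2, mul_left_cancel₀ (pow_ne_zero a hnK) h4, hm]
    push_cast
    ring
  obtain ⟨g, hg⟩ : ∃ g : M ⟶ M, g = (m : ℚ)⁻¹ • φ y := ⟨_, rfl⟩
  have hmK : (m : K) ≠ 0 := Int.cast_ne_zero.2 hm0
  have hopg : op R g = (m : K)⁻¹ • ψ y := by
    rw [hg, Pool.Agent.R484.NC.op_smul, hφ]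
    simp
  have hrep : RepresentsEven R g := by
    intro h
    obtain ⟨nh, zh, hnh, hzh⟩ := hden h
    have hnhK : (nh : K) ≠ 0 := Int.cast_ne_zero.2 hnh
    have hoph : (nh : K) • op R h = ψ zh := by
      rw [← hφ, ← hzh, Pool.Agent.R484.NC.op_smul]
      simp
    apply mul_left_cancel₀ hnhK
    have h1 : (nh : K) * L (op R h * ((m : K)⁻¹ • ψ y)) = (m : K)⁻¹ * L (ψ zh * ψ y) := by
      rw [← hoph, mul_smul_comm, smul_mul_assoc, L.map_smul, L.map_smul, smul_eq_mul, smul_eq_mul]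
      ring
    have h2 : (evp R M - (1 - evp R M)) * (op R h * evp R M) = evp R M * op R h := by
      rw [(op_comm R h).eq, ← mul_assoc]
      have h3 : (evp R M - (1 - evp R M)) * evp R M = evp R M := by
        rw [sub_mul, sub_mul, evp_idem, one_mul, sub_self, sub_zero]
      rw [h3]
    rw [str_mul, evenTrace_eq, hopg, ← hL, h1, hτy, ← hoph, inv_mul_cancel_left₀ hmK,
      smul_mul_assoc, L.map_smul, smul_eq_mul, hL, h2]
  obtain ⟨q, -, -, hgap⟩ := gap_criterion R g hrep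
  have hall : ∀ N : ℕ, 1 ≤ N → Module.finrank K (R.H.obj M) ≤ N →
      (2 : K) • R.H.map (Pool.Agent.R484.NC.lift g N) = 𝟙 _ + R.par M := (hgap.out 0 4).1 hplus
  have hlift := hall (max 1 (Module.finrank K (R.H.obj M))) (le_max_left _ _) (le_max_right _ _)
  obtain ⟨N, hN⟩ : ∃ N, N = max 1 (Module.finrank K (R.H.obj M)) := ⟨_, rfl⟩
  rw [← hN] at hlift
  have hopl : op R (Pool.Agent.R484.NC.lift g N) = evp R M := by
    have h2 : (2 : K) ≠ 0 := two_ne_zero
    have h3 : R.H.map (Pool.Agent.R484.NC.lift g N) = (2 : K)⁻¹ • (𝟙 _ + R.par M) := by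
      rw [← hlift, smul_smul, inv_mul_cancel₀ h2, one_smul]
    have h4 : (2 : K) • R.H.map f = 𝟙 _ + R.par M := by
      have h5 : R.H.map f = (2 : K)⁻¹ • (𝟙 _ + R.par M) := by
        obtain ⟨f', hf'⟩ := hplus
        have h6 : op R f' = evp R M := by
          have h7 : R.H.map f' = (2 : K)⁻¹ • (𝟙 _ + R.par M) := by
            rw [← hf', smul_smul, inv_mul_cancel₀ h2, one_smul]
          rw [op, h7]
          rfl
        have h8 : R.H.map f = R.H.map f' := ModuleCat.hom_ext (hf.trans h6.symm)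
        rw [h8, ← hf', smul_smul, inv_mul_cancel₀ h2, one_smul]
      rw [h5, smul_smul, mul_inv_cancel₀ h2, one_smul]
    have h9 : R.H.map (Pool.Agent.R484.NC.lift g N) = R.H.map f := by
      rw [h3, ← h4, smul_smul, inv_mul_cancel₀ h2, one_smul]
    rw [op, h9]
    exact hf
  rw [Pool.Agent.R484.NC.op_lift, hopg] at hopl
  refine ⟨(m ^ N) ^ N, ((m ^ N) ^ N : ℤ) • (1 : E) - ((m ^ N : ℤ) • (1 : E) - y ^ N) ^ N, ?_, ?_⟩
  · intro h
    exact hpm (hpp.dvd_of_dvd_pow (hpp.dvd_of_dvd_pow h))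
  · rw [← hopl]
    have e1 : ((m : K) ^ N) • ((1 : Module.End K (R.H.obj M)) - ((m : K)⁻¹ • ψ y) ^ N) =
        ((m : K) ^ N) • (1 : Module.End K (R.H.obj M)) - ψ y ^ N := by
      rw [smul_sub, smul_pow, smul_smul, inv_pow, mul_inv_cancel₀ (pow_ne_zero N hmK), one_smul]
    have e2 : (((m : K) ^ N) ^ N) • ((1 : Module.End K (R.H.obj M)) -
        (1 - ((m : K)⁻¹ • ψ y) ^ N) ^ N) = (((m : K) ^ N) ^ N) • (1 : Module.End K (R.H.obj M)) -
        (((m : K) ^ N) • (1 : Module.End K (R.H.obj M)) - ψ y ^ N) ^ N := by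
      rw [smul_sub, ← smul_pow, e1]
    have e3 : ((((m ^ N) ^ N : ℤ)) : K) = ((m : K) ^ N) ^ N := by push_cast; rfl
    rw [e3, e2]
    simp only [map_sub, map_pow, map_zsmul, map_one]
    have e4 : ∀ (s : ℤ), s • (1 : Module.End K (R.H.obj M)) = (s : K) • 1 := fun s => by
      rw [← Int.cast_smul_eq_zsmul K]
    rw [e4, e4]
    push_cast
    rfl

end

end Pool.Agent.U586.CP
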