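import Pool.Agent.U586.CP.CDefs
import Pool.Agent.U586.CP.Int

/-!
# Coefficient fields of the noncommutative Kunneth conjecture: proofs
-/

set_option autoImplicit false

open CategoryTheory Module TensorProduct Limits MonoidalCategory

namespace Pool.Agent.U586.CP.CF

open Pool.Agent.Results.MP_eadf0f_ag.EveryPositiveCharacteristic
open Pool.Agent.Results.MP_8f22fa_ag.IntegralProjectors
open Pool.Agent.Y112.SR Pool.Agent.Y112.KD Pool.Agent.R484.NC Pool.Agent.N164.NC

universe u v w u' v' w'

section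

variable {p : ℕ} [Fact p.Prime] (T : Theory.{u, v, w} p) {k : Type} [Field k] [CharP k p]
  [PerfectRing k p] {N : Chow.{u', v'}}
  (ρ : Rational (T.M k).Cat (FractionRing (WittVector p k)) N)

/-- The action of the correspondences on the realisation. -/
theorem exists_ringHom (hρ : IsTP T k ρ) (A : (T.M k).Cat) :
    ∃ ψ : End A →+* Module.End (FractionRing (WittVector p k)) (ρ.real.H.obj (ρ.func.obj A)),
      ∀ z : End A, op ρ.real (ρ.func.map z) = ψ z := by
  obtain ⟨loc, hl⟩ := hρ
  have hact : ∀ (ε : ZMod 2) (z : A ⟶ A) (x : (T.TP k).obj ε A),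
      op ρ.real (ρ.func.map z) (loc ε A x) = loc ε A ((T.TP k).act ε z x) := fun ε z x =>
    (hl.natural ε A A z x).symm
  have hadd : ∀ z z' : A ⟶ A, op ρ.real (ρ.func.map (z + z')) =
      op ρ.real (ρ.func.map z) + op ρ.real (ρ.func.map z') := by
    intro z z'
    have key : ∀ (ε : ZMod 2) (x : (T.TP k).obj ε A), op ρ.real (ρ.func.map (z + z')) (loc ε A x) =
        (op ρ.real (ρ.func.map z) + op ρ.real (ρ.func.map z')) (loc ε A x) := by
      intro ε x
      rw [LinearMap.add_apply, hact, hact, hact, (T.TP k).add, (hl.inverts ε A).1]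
    refine LinearMap.ext_on (hl.generate A) ?_
    rintro _ (⟨x, rfl⟩ | ⟨x, rfl⟩)
    · exact key 0 x
    · exact key 1 x
  refine ⟨RingHom.mk' ⟨⟨fun z => op ρ.real (ρ.func.map z), ?_⟩, fun z z' => ?_⟩
    (fun z z' => hadd z z'), fun z => rfl⟩
  · change op ρ.real (ρ.func.map (𝟙 A)) = 1
    rw [ρ.func.map_id, Pool.Agent.R484.NC.op_id]
  · change op ρ.real (ρ.func.map (z' ≫ z)) = _
    rw [ρ.func.map_comp, Pool.Agent.R484.NC.op_comp]

/-- The even projector as a combination of correspondences. -/
theorem evp_eq (hρ : IsTP T k ρ) (A : (T.M k).Cat) {n : ℕ} (c : Fin n → WittVector p k)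
    (z : Fin n → (A ⟶ A)) (h0 : ∀ x, comb (T.TP k) c z 0 x = x)
    (h1 : ∀ x, comb (T.TP k) c z 1 x = 0) :
    evp ρ.real (ρ.func.obj A) = ∑ i, algebraMap (WittVector p k)
      (FractionRing (WittVector p k)) (c i) • op ρ.real (ρ.func.map (z i)) := by
  have hc := R_charZero ρ.real
  obtain ⟨loc, hl⟩ := hρ
  have hpar : ∀ v : ρ.V A, evp ρ.real (ρ.func.obj A) v - (v - evp ρ.real (ρ.func.obj A) v) =
      ρ.parity A v := fun v => (LinearMap.congr_fun (par_hom ρ.real _) v).symm
  have hsum : ∀ (ε : ZMod 2) (x : (T.TP k).obj ε A), (∑ i, algebraMap (WittVector p k)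
      (FractionRing (WittVector p k)) (c i) • op ρ.real (ρ.func.map (z i))) (loc ε A x) =
      loc ε A (comb (T.TP k) c z ε x) := by
    intro ε x
    obtain ⟨l, hl'⟩ : ∃ l : (T.TP k).obj ε A →+ ρ.V A, ⇑l = loc ε A :=
      ⟨AddMonoidHom.mk' _ (hl.inverts ε A).1, rfl⟩
    rw [comb, ← hl', map_sum, LinearMap.sum_apply]
    refine Finset.sum_congr rfl fun i _ => ?_
    rw [hl', (hl.inverts ε A).2.1, hl.natural]
    rfl
  refine LinearMap.ext_on (hl.generate A) ?_
  rintro _ (⟨x, rfl⟩ | ⟨x, rfl⟩)
  · refine Eq.trans ?_ (hsum 0 x).symm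
    rw [h0]
    have h3 := hpar (loc 0 A x)
    rw [hl.even] at h3
    have h4 : (2 : FractionRing (WittVector p k)) • evp ρ.real (ρ.func.obj A) (loc 0 A x) =
        (2 : FractionRing (WittVector p k)) • loc 0 A x := by
      rw [two_smul, two_smul]
      nth_rw 3 [← h3]
      abel
    exact smul_right_injective _ two_ne_zero h4
  · refine Eq.trans ?_ (hsum 1 x).symm
    rw [h1]
    have h3 := hpar (loc 1 A x)
    rw [hl.odd] at h3
    have h5 : loc 1 A 0 = 0 := ((hl.inverts 1 A).2.2 0).2 ⟨0, smul_zero _⟩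
    have h4 : (2 : FractionRing (WittVector p k)) • evp ρ.real (ρ.func.obj A) (loc 1 A x) =
        (2 : FractionRing (WittVector p k)) • (0 : ρ.V A) := by
      rw [two_smul, smul_zero]
      have h6 := congrArg (fun v => v + loc 1 A x) h3
      simp only [neg_add_cancel] at h6
      rw [← h6]
      abel
    rw [h5]
    exact smul_right_injective _ two_ne_zero h4

/-- The even projector on the images of `TP_* (A)`. -/
theorem evp_loc {loc : ∀ (ε : ZMod 2) (A : (T.M k).Cat), (T.TP k).obj ε A → ρ.V A}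
    (hl : IsLocalisation (T.TP k) ρ p (algebraMap _ _) loc) (A : (T.M k).Cat) :
    (∀ x, evp ρ.real (ρ.func.obj A) (loc 0 A x) = loc 0 A x) ∧
      ∀ x, evp ρ.real (ρ.func.obj A) (loc 1 A x) = 0 := by
  have hc := R_charZero ρ.real
  have hpar : ∀ v : ρ.V A, evp ρ.real (ρ.func.obj A) v - (v - evp ρ.real (ρ.func.obj A) v) =
      ρ.parity A v := fun v => (LinearMap.congr_fun (par_hom ρ.real _) v).symm
  constructor
  · intro x
    have h3 := hpar (loc 0 A x)
    rw [hl.even] at h3
    have h4 : (2 : FractionRing (WittVector p k)) • evp ρ.real (ρ.func.obj A) (loc 0 A x) =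
        (2 : FractionRing (WittVector p k)) • loc 0 A x := by
      rw [two_smul, two_smul]
      nth_rw 3 [← h3]
      abel
    exact smul_right_injective _ two_ne_zero h4
  · intro x
    have h3 := hpar (loc 1 A x)
    rw [hl.odd] at h3
    have h4 : (2 : FractionRing (WittVector p k)) • evp ρ.real (ρ.func.obj A) (loc 1 A x) =
        (2 : FractionRing (WittVector p k)) • (0 : ρ.V A) := by
      rw [two_smul, smul_zero]
      have h6 := congrArg (fun v => v + loc 1 A x) h3
      simp only [neg_add_cancel] at h6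
      rw [← h6]
      abel
    exact smul_right_injective _ two_ne_zero h4

omit [PerfectRing k p] in
lemma isUnit_intCast (n : ℤ) (h : ¬ (p : ℤ) ∣ n) : IsUnit (n : WittVector p k) := by
  refine WittVector.isUnit_of_coeff_zero_ne_zero _ ?_
  change WittVector.constantCoeff (n : WittVector p k) ≠ 0
  rw [map_intCast]
  intro h0
  exact h ((CharP.intCast_eq_zero_iff k p n).1 h0)

omit [PerfectRing k p] in
lemma dvd_of_eq_mul (n : ℤ) (w : WittVector p k) (h : (n : WittVector p k) = p * w) :
    (p : ℤ) ∣ n := by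
  have h1 := congrArg WittVector.constantCoeff h
  rw [map_intCast, map_mul, map_natCast, CharP.cast_eq_zero, zero_mul] at h1
  exact (CharP.intCast_eq_zero_iff k p n).1 h1

/-- **Descent to the integers.** -/
theorem local_of (hρ : IsTP T k ρ) (hI : IsIntegral ρ) (A : (T.M k).Cat)
    (ht : TorsionFree (T.TP k) p A) (h : IntegralPlus (T.TP k) A) : LocalPlus (T.TP k) p A := by
  have hcz := R_charZero ρ.real
  obtain ⟨n, c, z, h0, h1⟩ := h
  have hev := evp_eq T ρ hρ A c z h0 h1
  obtain ⟨ψ, hψ⟩ := exists_ringHom T ρ hρ A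
  have hW0 : CharZero (WittVector p k) := ⟨fun a b hab => by
    have h2 := congrArg (algebraMap (WittVector p k) (FractionRing (WittVector p k))) hab
    rw [map_natCast, map_natCast] at h2
    exact Nat.cast_injective h2⟩
  obtain ⟨m, y, hm, hy⟩ := Pool.Agent.U586.CP.local_of_integral ρ.real
    (IsFractionRing.injective (WittVector p k) (FractionRing (WittVector p k)))
    (fun n h => isUnit_intCast n h) (fun n w h => dvd_of_eq_mul n w h) N.unit (ρ.func.obj A)
    (End A) ψ (fun z => ρ.func.map z) hψ (hI.1 A) (hI.2 A) c z (by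
      rw [hev]
      exact Finset.sum_congr rfl fun i _ => by rw [← hψ])
  obtain ⟨loc, hl⟩ := hρ
  obtain ⟨e0, e1⟩ := evp_loc T ρ hl A
  have htor : ∀ (n : ℕ) (ε : ZMod 2) (x : (T.TP k).obj ε A), p ^ n • x = 0 → x = 0 := by
    intro n
    induction n with
    | zero => intro ε x hx; rwa [pow_zero, one_smul] at hx
    | succ n ih =>
      intro ε x hx
      rw [pow_succ', mul_smul] at hx
      exact ih ε x (ht ε _ hx)
  have hinj : ∀ (ε : ZMod 2) (x x' : (T.TP k).obj ε A), loc ε A x = loc ε A x' → x = x' := by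
    intro ε x x' hx
    have h5 : loc ε A (x - x') = 0 := by
      have h6 := (hl.inverts ε A).1 (x - x') x'
      rw [sub_add_cancel, hx] at h6
      exact right_eq_add.1 h6
    obtain ⟨n, hn⟩ := ((hl.inverts ε A).2.2 _).1 h5
    exact sub_eq_zero.1 (htor n ε _ hn)
  have hact : ∀ (ε : ZMod 2) (x : (T.TP k).obj ε A), loc ε A ((T.TP k).act ε y x) =
      (m : FractionRing (WittVector p k)) • evp ρ.real (ρ.func.obj A) (loc ε A x) := by
    intro ε x
    have h5 : loc ε A ((T.TP k).act ε y x) = op ρ.real (ρ.func.map y) (loc ε A x) :=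
      hl.natural ε A A y x
    have h6 : op ρ.real (ρ.func.map y) = (m : FractionRing (WittVector p k)) •
        evp ρ.real (ρ.func.obj A) := (hψ y).trans hy
    rw [h5, h6]
    rfl
  have hm' : ∀ (ε : ZMod 2) (x : (T.TP k).obj ε A), loc ε A (m • x) =
      (m : FractionRing (WittVector p k)) • loc ε A x := by
    intro ε x
    rw [← Int.cast_smul_eq_zsmul (WittVector p k), (hl.inverts ε A).2.1, map_intCast]
  refine ⟨m, y, hm, fun x => hinj 0 _ _ ?_, fun x => hinj 1 _ _ ?_⟩
  · rw [hact, e0, hm']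
  · rw [hact, e1, smul_zero]
    exact (((hl.inverts 1 A).2.2 0).2 ⟨0, smul_zero _⟩).symm

/-- **Back to all coefficient fields.** -/
theorem plus_of_local (F E : Type) [Field F] [Field E] [Algebra k E] [Algebra F E]
    (A : (T.M k).Cat) (ht : TorsionFree (T.TP k) p A) (h : LocalPlus (T.TP k) p A) :
    (T.M k).PlusAlgebraic F E A := by
  obtain ⟨m, y, hm, h0, h1⟩ := h
  have hs := red_surjective (T.exact k) A ht
  have hE : CharP E p := charP_of_injective_algebraMap (algebraMap k E).injective p
  have hmE : (m : E) ≠ 0 := fun h => hm ((CharP.intCast_eq_zero_iff E p m).1 h)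
  have hmF : (m : F) ≠ 0 := by
    intro h
    apply hmE
    rw [← map_intCast (algebraMap F E), h, map_zero]
  have hr0 : ∀ ε, (T.maps k).red ε A 0 = 0 := fun ε => by
    have h := (T.maps k).red_add ε A 0 0
    rw [add_zero] at h
    exact left_eq_add.1 h
  have hrm : ∀ (ε : ZMod 2) (x : (T.TP k).obj ε A),
      (T.maps k).red ε A (m • x) = (m : k) • (T.maps k).red ε A x := by
    intro ε x
    rw [← Int.cast_smul_eq_zsmul (WittVector p k), (T.maps k).red_smul]
    congr 1
    exact map_intCast WittVector.constantCoeff m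
  refine ⟨1, fun _ => (m : F)⁻¹, fun _ => y, fun x => ?_, fun x => ?_⟩
  · obtain ⟨x, rfl⟩ := hs 0 x
    rw [Fin.sum_univ_one, ← (T.exact k).red_natural, h0, hrm, TensorProduct.tmul_smul,
      TensorProduct.smul_tmul', map_inv₀, map_intCast, Algebra.smul_def, map_intCast,
      mul_inv_cancel₀ hmE]
  · obtain ⟨x, rfl⟩ := hs 1 x
    rw [Fin.sum_univ_one, ← (T.exact k).red_natural, h1, hr0, TensorProduct.tmul_zero,
      TensorProduct.zero_tmul]

end

/-- **Characteristic zero.** -/
theorem char_zero {k : Type} [Field k] {N : Chow.{u', v'}} (R : SuperRealisation N.C k)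
    (M : N.C) : List.TFAE [∃ (F E : Type) (_ : Field F) (_ : Field E) (_ : Algebra k E)
      (_ : Algebra F E), AlgebraicOver R M F E,
      ∀ (F E : Type) [Field F] [Field E] [Algebra k E] [Algebra F E], AlgebraicOver R M F E,
      R.CPlus M] := by
  have hc := R_charZero R
  tfae_have 1 → 3 := by
    rintro ⟨F, E, _, _, _, _, n, c, f, h⟩
    apply cplus_of_span R N.unit
    obtain ⟨l, hl⟩ : ∃ l : E →ₗ[k] k, l 1 ≠ 0 := by
      by_contra hcon
      push Not at hcon
      exact one_ne_zero ((Module.forall_dual_apply_eq_zero_iff k (1 : E)).1 hcon)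
    have h1 : l 1 • evp R M = ∑ i, l (algebraMap F E (c i)) • op R (f i) := by
      ext x
      have h2 := congrArg (fun t => TensorProduct.lid k _ (l.rTensor (R.H.obj M) t)) (h x)
      simp only [map_sum, LinearMap.rTensor_tmul, TensorProduct.lid_tmul] at h2
      rw [LinearMap.smul_apply, LinearMap.sum_apply, ← h2]
      rfl
    have h2 : evp R M = (l 1)⁻¹ • ∑ i, l (algebraMap F E (c i)) • op R (f i) := by
      rw [← h1, smul_smul, inv_mul_cancel₀ hl, one_smul]
    rw [h2]
    exact Submodule.smul_mem _ _ (Submodule.sum_mem _ fun i _ =>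
      Submodule.smul_mem _ _ (Submodule.subset_span ⟨_, rfl⟩))
  tfae_have 3 → 2 := by
    intro h F E _ _ _ _
    obtain ⟨f, hf⟩ := (cplus_iff_op R M).1 h
    refine ⟨1, fun _ => 1, fun _ => f, fun x => ?_⟩
    rw [Fin.sum_univ_one, map_one]
    change 1 ⊗ₜ[k] op R f x = _
    rw [hf]
  tfae_have 2 → 1 := fun h => ⟨k, k, inferInstance, inferInstance, inferInstance, inferInstance,
    h k k⟩
  tfae_finish

end Pool.Agent.U586.CP.CF
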