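import Mathlib

/-!
# Integer functions in the span over a ring of Witt vectors
-/

set_option autoImplicit false

namespace Pool.Agent.U586.CP

open Finset

universe u v

/-- Let `W` be a domain of characteristic zero in which the integers prime to `p` are units, and no other
integers are units. If an integer valued function `b` is a combination over `W` of integer valued
functions `v i`, then a multiple `m b` with `m` prime to `p` is a combination over `ℤ`. -/
theorem descent {p : ℕ} [hp : Fact p.Prime] {W : Type} [CommRing W] [IsDomain W] [CharZero W]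
    (hW : ∀ n : ℤ, ¬ (p : ℤ) ∣ n → IsUnit (n : W))
    (hpW : ∀ (n : ℤ) (w : W), (n : W) = p * w → (p : ℤ) ∣ n)
    {ι : Type u} {Y : Type v} [DecidableEq ι] (v : ι → Y → ℤ) (b : Y → ℤ) (s : Finset ι) :
    ∀ (c : ι → W), (∀ y, (b y : W) = ∑ i ∈ s, c i * (v i y : W)) →
      ∃ (m : ℤ) (d : ι → ℤ), ¬ (p : ℤ) ∣ m ∧ ∀ y, m * b y = ∑ i ∈ s, d i * v i y := by
  induction s using Finset.strongInduction with
  | H s ih =>
    intro c hc
    have hpp : Prime (p : ℤ) := Nat.prime_iff_prime_int.1 hp.out
    by_cases hrel : ∃ e : ι → ℤ, (∃ i ∈ s, e i ≠ 0) ∧ ∀ y, ∑ i ∈ s, e i * v i y = 0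
    · obtain ⟨e, ⟨i0, hi0, he0⟩, he⟩ := hrel
      obtain ⟨e', he', hg⟩ := Finset.extract_gcd e ⟨i0, hi0⟩
      have hg0 : s.gcd e ≠ 0 := fun h => he0 (Finset.gcd_eq_zero_iff.1 h i0 hi0)
      have hrel' : ∀ y, ∑ i ∈ s, e' i * v i y = 0 := by
        intro y
        have h1 := he y
        have h2 : ∑ i ∈ s, e i * v i y = s.gcd e * ∑ i ∈ s, e' i * v i y := by
          rw [Finset.mul_sum]
          refine Finset.sum_congr rfl fun i hi => ?_
          rw [he' i hi]
          ring
        rw [h2] at h1
        exact (mul_eq_zero.1 h1).resolve_left hg0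
      obtain ⟨j, hj, hpj⟩ : ∃ j ∈ s, ¬ (p : ℤ) ∣ e' j := by
        by_contra hcon
        push Not at hcon
        have h3 : (p : ℤ) ∣ s.gcd e' := Finset.dvd_gcd hcon
        rw [hg] at h3
        exact hpp.not_isUnit (isUnit_of_dvd_one h3)
      obtain ⟨u, hu⟩ := hW (e' j) hpj
      obtain ⟨m, d, hm, hd⟩ := ih (s.erase j) (Finset.erase_ssubset hj)
        (fun i => c i - c j * ((u⁻¹ : Wˣ) : W) * (e' i : W)) (by
          intro y
          have h4 := congrArg (fun n : ℤ => (n : W)) (hrel' y)
          simp only [Int.cast_sum, Int.cast_mul, Int.cast_zero] at h4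
          rw [← Finset.add_sum_erase s _ hj] at h4
          rw [hc y, ← Finset.add_sum_erase s _ hj]
          simp only [sub_mul]
          rw [Finset.sum_sub_distrib]
          have h5 : ∑ i ∈ s.erase j, c j * ((u⁻¹ : Wˣ) : W) * (e' i : W) * (v i y : W) =
              - (c j * (v j y : W)) := by
            have h6 : ∑ i ∈ s.erase j, (e' i : W) * (v i y : W) = - ((e' j : W) * (v j y : W)) :=
              eq_neg_of_add_eq_zero_right h4
            calc ∑ i ∈ s.erase j, c j * ((u⁻¹ : Wˣ) : W) * (e' i : W) * (v i y : W)
                = c j * ((u⁻¹ : Wˣ) : W) * ∑ i ∈ s.erase j, (e' i : W) * (v i y : W) := by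
                  rw [Finset.mul_sum]
                  exact Finset.sum_congr rfl fun i _ => by ring
              _ = - (c j * (((u⁻¹ : Wˣ) : W) * u) * (v j y : W)) := by
                  rw [h6, hu]
                  ring
              _ = - (c j * (v j y : W)) := by
                  rw [Units.inv_mul, mul_one]
          rw [h5]
          ring)
      refine ⟨m, fun i => if i = j then 0 else d i, hm, fun y => ?_⟩
      rw [hd y, ← Finset.add_sum_erase s _ hj]
      simp only [if_true, zero_mul, zero_add]
      refine Finset.sum_congr rfl fun i hi => ?_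
      rw [if_neg (Finset.ne_of_mem_erase hi)]
    · -- the functions are independent
      let K := FractionRing W
      have hK0 : CharZero K := IsFractionRing.charZero_of_isFractionRing W (K := K)
      have hinj : Function.Injective (algebraMap W K) := IsFractionRing.injective W K
      obtain ⟨π, hπ⟩ : ∃ π : K →ₗ[ℚ] ℚ, π 1 = 1 := by
        obtain ⟨l, hl⟩ : ∃ l : K →ₗ[ℚ] ℚ, l 1 ≠ 0 := by
          by_contra hcon
          push Not at hcon
          exact one_ne_zero ((Module.forall_dual_apply_eq_zero_iff ℚ (1 : K)).1 hcon)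
        refine ⟨(l 1)⁻¹ • l, ?_⟩
        rw [LinearMap.smul_apply, smul_eq_mul, inv_mul_cancel₀ hl]
      have hlin : ∀ (l : K →ₗ[ℚ] ℚ) (n : ℤ) (x : K), l (x * n) = l x * n := by
        intro l n x
        have h1 : x * (n : K) = (n : ℚ) • x := by
          rw [Algebra.smul_def, map_intCast, mul_comm]
        rw [h1, map_smul, smul_eq_mul, mul_comm]
      obtain ⟨q, hq⟩ : ∃ q : ι → ℚ, q = fun i => π (algebraMap W K (c i)) := ⟨_, rfl⟩
      have hcK : ∀ y, (b y : K) = ∑ i ∈ s, algebraMap W K (c i) * (v i y : K) := by
        intro y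
        have h1 := congrArg (algebraMap W K) (hc y)
        rw [map_intCast, map_sum] at h1
        rw [h1]
        exact Finset.sum_congr rfl fun i _ => by rw [map_mul, map_intCast]
      have hbq : ∀ y, (b y : ℚ) = ∑ i ∈ s, q i * (v i y : ℚ) := by
        intro y
        have h1 := congrArg π (hcK y)
        have h2 : π (b y : K) = b y := by
          have := hlin π (b y) 1
          rwa [one_mul, hπ, one_mul] at this
        rw [h2, map_sum] at h1
        rw [h1]
        exact Finset.sum_congr rfl fun i _ => by rw [hlin, hq]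
      have hcq : ∀ i ∈ s, algebraMap W K (c i) = (q i : K) := by
        intro i1 hi1
        by_contra hne
        obtain ⟨l, hl⟩ : ∃ l : K →ₗ[ℚ] ℚ, l (algebraMap W K (c i1) - (q i1 : K)) ≠ 0 := by
          by_contra hcon
          push Not at hcon
          exact sub_ne_zero.2 hne ((Module.forall_dual_apply_eq_zero_iff ℚ _).1 hcon)
        have h0 : ∀ y, ∑ i ∈ s, l (algebraMap W K (c i) - (q i : K)) * (v i y : ℚ) = 0 := by
          intro y
          have h1 : ∑ i ∈ s, (algebraMap W K (c i) - (q i : K)) * (v i y : K) = 0 := by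
            simp only [sub_mul]
            rw [Finset.sum_sub_distrib, ← hcK y]
            have h2 := congrArg (fun t : ℚ => (t : K)) (hbq y)
            simp only [Rat.cast_sum, Rat.cast_mul, Rat.cast_intCast] at h2
            rw [h2, sub_self]
          have h2 := congrArg l h1
          rw [map_sum, map_zero] at h2
          rw [← h2]
          exact Finset.sum_congr rfl fun i _ => (hlin l _ _).symm
        obtain ⟨D, hD⟩ := IsLocalization.exist_integer_multiples (nonZeroDivisors ℤ) s
          (fun i => l (algebraMap W K (c i) - (q i : K)))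
        have hD' : ∀ i, ∃ e : ℤ, i ∈ s → (e : ℚ) = (D : ℤ) * l (algebraMap W K (c i) - (q i : K)) := by
          intro i
          by_cases hi : i ∈ s
          · obtain ⟨e, he⟩ := hD i hi
            refine ⟨e, fun _ => ?_⟩
            have h3 : (e : ℚ) = algebraMap ℤ ℚ e := rfl
            rw [h3, he, zsmul_eq_mul]
          · exact ⟨0, fun h => absurd h hi⟩
        choose e he using hD'
        have hD0 : ((D : ℤ) : ℚ) ≠ 0 := by
          exact_mod_cast nonZeroDivisors.ne_zero D.2
        refine hrel ⟨e, ⟨i1, hi1, fun h => ?_⟩, fun y => ?_⟩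
        · have h3 := he i1 hi1
          rw [h, Int.cast_zero] at h3
          exact (mul_ne_zero hD0 hl) h3.symm
        · have h3 : ((∑ i ∈ s, e i * v i y : ℤ) : ℚ) = 0 := by
            rw [Int.cast_sum]
            have h4 : ∑ i ∈ s, ((e i * v i y : ℤ) : ℚ) = (D : ℤ) *
                ∑ i ∈ s, l (algebraMap W K (c i) - (q i : K)) * (v i y : ℚ) := by
              rw [Finset.mul_sum]
              refine Finset.sum_congr rfl fun i hi => ?_
              rw [Int.cast_mul, he i hi, mul_assoc]
            rw [h4, h0, mul_zero]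
          exact_mod_cast h3
      have hden : ∀ i ∈ s, ¬ (p : ℤ) ∣ ((q i).den : ℤ) := by
        intro i hi hdvd
        have h1 : ((q i).den : W) * c i = ((q i).num : W) := by
          apply hinj
          rw [map_mul, map_natCast, map_intCast, hcq i hi]
          have h2 : ((q i).den : ℚ) * q i = (q i).num := by rw [mul_comm]; exact Rat.mul_den_eq_num _
          exact_mod_cast congrArg (fun t : ℚ => (t : K)) h2
        obtain ⟨d', hd'⟩ := hdvd
        have h2 : (p : ℤ) ∣ (q i).num := by
          refine hpW _ ((d' : W) * c i) ?_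
          rw [← h1, ← mul_assoc]
          congr 1
          have := congrArg (fun t : ℤ => (t : W)) hd'
          simpa using this
        have h3 : IsCoprime ((q i).num) ((q i).den : ℤ) := by
          rw [Int.isCoprime_iff_gcd_eq_one]
          exact (q i).reduced
        exact hpp.not_isUnit (h3.isUnit_of_dvd' h2 ⟨d', hd'⟩)
      refine ⟨∏ i ∈ s, ((q i).den : ℤ), fun i => (q i).num * ∏ j ∈ s.erase i, ((q j).den : ℤ), ?_, ?_⟩
      · intro h
        obtain ⟨i, hi, h1⟩ := (hpp.dvd_finsetProd_iff _).1 h
        exact hden i hi h1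
      · intro y
        have h1 : ((∏ i ∈ s, ((q i).den : ℤ)) * b y : ℚ) = ∑ i ∈ s,
            ((q i).num * ∏ j ∈ s.erase i, ((q j).den : ℤ) : ℚ) * (v i y : ℚ) := by
          rw [hbq y, Finset.mul_sum]
          refine Finset.sum_congr rfl fun i hi => ?_
          rw [← Finset.mul_prod_erase s _ hi]
          have h2 : ((q i).den : ℚ) * q i = (q i).num := by rw [mul_comm]; exact Rat.mul_den_eq_num _
          rw [← h2]
          push_cast
          ring
        exact_mod_cast h1

end Pool.Agent.U586.CP
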